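import Mathlib

/-! Exponential moments of linear and quadratic functions of a standard Gaussian vector. -/

namespace Pool.Agent.MP_3ee8cb_gt.DFG

open MeasureTheory ProbabilityTheory Real
open scoped RealInnerProductSpace

noncomputable section

theorem one_dim {a : ℝ} (h0 : 0 ≤ a) (h1 : 4 * a ≤ 1) :
    Integrable (fun x : ℝ => exp (a * x ^ 2)) (gaussianReal 0 1) ∧
      ∫ x, exp (a * x ^ 2) ∂(gaussianReal 0 1) ≤ exp (2 * a) := by
  have hb : 0 < 1 / 2 - a := by linarith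
  have e : ∀ x : ℝ, gaussianPDFReal 0 1 x * exp (a * x ^ 2) =
      (√(2 * π))⁻¹ * exp (-(1 / 2 - a) * x ^ 2) := fun x => by
    simp only [gaussianPDFReal_def, NNReal.coe_one, mul_one, sub_zero]
    rw [mul_assoc, ← exp_add]
    congr 2
    ring
  refine ⟨?_, ?_⟩
  · rw [gaussianReal_of_var_ne_zero 0 one_ne_zero, integrable_withDensity_iff_integrable_smul'
      (measurable_gaussianPDF _ _) (.of_forall fun _ => gaussianPDF_lt_top)]
    simp only [toReal_gaussianPDF, smul_eq_mul, e]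
    exact (integrable_exp_neg_mul_sq hb).const_mul _
  · rw [integral_gaussianReal_eq_integral_smul one_ne_zero]
    simp only [smul_eq_mul, e]
    rw [integral_const_mul, integral_gaussian]
    have p : 0 < √(2 * π) := sqrt_pos.2 (by positivity)
    rw [inv_mul_le_iff₀ p, sqrt_le_left (by positivity), mul_pow, sq_sqrt (by positivity),
      div_le_iff₀ hb]
    have h2 := add_one_le_exp (2 * a)
    have h3 : 1 + 4 * a ≤ exp (2 * a) ^ 2 := by nlinarith
    have h4 : 1 ≤ exp (2 * a) ^ 2 * (1 - 2 * a) :=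
      le_trans (by nlinarith) (mul_le_mul_of_nonneg_right h3 (by linarith))
    calc π = π * 1 := (mul_one _).symm
      _ ≤ π * (exp (2 * a) ^ 2 * (1 - 2 * a)) := mul_le_mul_of_nonneg_left h4 pi_pos.le
      _ = _ := by ring

variable {V W : Type*} [NormedAddCommGroup V] [InnerProductSpace ℝ V] [FiniteDimensional ℝ V]
  [NormedAddCommGroup W] [InnerProductSpace ℝ W] [FiniteDimensional ℝ W]

/-- The Hilbert-Schmidt sum equals the one of the adjoint. -/
theorem hs_adj {ι κ : Type*} [Fintype ι] [Fintype κ] (T : V →L[ℝ] W)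
    (b : OrthonormalBasis ι ℝ V) (c : OrthonormalBasis κ ℝ W) :
    ∑ i, ‖T (b i)‖ ^ 2 = ∑ j, ‖ContinuousLinearMap.adjoint T (c j)‖ ^ 2 := by
  have h1 : ∀ i, ‖T (b i)‖ ^ 2 = ∑ j, ⟪c j, T (b i)⟫ ^ 2 := fun i =>
    (c.sum_sq_inner_right _).symm
  have h2 : ∀ j, ‖ContinuousLinearMap.adjoint T (c j)‖ ^ 2 = ∑ i, ⟪c j, T (b i)⟫ ^ 2 :=
    fun j => by
      rw [← b.sum_sq_inner_right]
      refine Finset.sum_congr rfl fun i _ => ?_
      rw [ContinuousLinearMap.adjoint_inner_right, real_inner_comm]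
  simp only [h1, h2]
  exact Finset.sum_comm

/-- The Hilbert-Schmidt sum does not depend on the basis. -/
theorem hs_basis {ι κ : Type*} [Fintype ι] [Fintype κ] (T : V →L[ℝ] W)
    (b : OrthonormalBasis ι ℝ V) (c : OrthonormalBasis κ ℝ V) :
    ∑ i, ‖T (b i)‖ ^ 2 = ∑ j, ‖T (c j)‖ ^ 2 :=
  (hs_adj T b (stdOrthonormalBasis ℝ W)).trans (hs_adj T c (stdOrthonormalBasis ℝ W)).symm

/-- A basis in which the quadratic form is diagonal. -/
theorem diag (T : V →L[ℝ] W) : ∃ b : OrthonormalBasis (Fin (Module.finrank ℝ V)) ℝ V,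
    ∀ x : Fin (Module.finrank ℝ V) → ℝ,
      ‖T (∑ i, x i • b i)‖ ^ 2 = ∑ i, ‖T (b i)‖ ^ 2 * x i ^ 2 := by
  have hS : (LinearMap.adjoint T.toLinearMap ∘ₗ T.toLinearMap).IsSymmetric :=
    LinearMap.isSymmetric_adjoint_comp_self _
  refine ⟨hS.eigenvectorBasis rfl, fun x => ?_⟩
  obtain ⟨b, hb⟩ : ∃ b, b = hS.eigenvectorBasis rfl := ⟨_, rfl⟩
  rw [← hb]
  have o : ∀ i j, i ≠ j → ⟪T (b i), T (b j)⟫ = 0 := fun i j hij => by
    have h1 := hS.apply_eigenvectorBasis rfl j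
    rw [← hb] at h1
    have h2 : ⟪T (b i), T (b j)⟫ =
        ⟪b i, (LinearMap.adjoint T.toLinearMap ∘ₗ T.toLinearMap) (b j)⟫ := by
      rw [LinearMap.comp_apply, LinearMap.adjoint_inner_right]
      rfl
    rw [h2, h1, inner_smul_right, b.orthonormal.inner_eq_zero hij, mul_zero]
  rw [← real_inner_self_eq_norm_sq, map_sum, sum_inner]
  refine Finset.sum_congr rfl fun i _ => ?_
  rw [inner_sum, Finset.sum_eq_single i]
  · rw [map_smul, real_inner_smul_left, real_inner_smul_right, real_inner_self_eq_norm_sq]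
    ring
  · intro j _ hj
    rw [map_smul, map_smul, real_inner_smul_left, real_inner_smul_right, o i j hj.symm]
    ring
  · intro h
    exact absurd (Finset.mem_univ i) h

variable [MeasurableSpace V] [BorelSpace V]

/-- The exponential moment of a quadratic form. -/
theorem g2 {ι : Type*} [Fintype ι] (b : OrthonormalBasis ι ℝ V) (T : V →L[ℝ] W) {la : ℝ}
    (h0 : 0 ≤ la) (h1 : 4 * la * ‖T‖ ^ 2 ≤ 1) :
    Integrable (fun y => exp (la * ‖T y‖ ^ 2)) (stdGaussian V) ∧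
      ∫ y, exp (la * ‖T y‖ ^ 2) ∂(stdGaussian V) ≤ exp (2 * la * ∑ i, ‖T (b i)‖ ^ 2) := by
  obtain ⟨c, hc⟩ := diag T
  have ha : ∀ i, 4 * (la * ‖T (c i)‖ ^ 2) ≤ 1 := fun i => by
    have h2 : ‖T (c i)‖ ≤ ‖T‖ := by simpa [c.orthonormal.1 i] using T.le_opNorm (c i)
    have h3 : ‖T (c i)‖ ^ 2 ≤ ‖T‖ ^ 2 := pow_le_pow_left₀ (norm_nonneg _) h2 2
    nlinarith [mul_le_mul_of_nonneg_left h3 h0]
  have h1d := fun i => one_dim (a := la * ‖T (c i)‖ ^ 2) (by positivity) (ha i)
  have e : ∀ x : Fin (Module.finrank ℝ V) → ℝ, exp (la * ‖T (∑ i, x i • c i)‖ ^ 2) =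
      ∏ i, exp (la * ‖T (c i)‖ ^ 2 * x i ^ 2) := fun x => by
    rw [hc, ← exp_sum, Finset.mul_sum]
    simp only [mul_assoc]
  have m : AEStronglyMeasurable (fun y => exp (la * ‖T y‖ ^ 2))
      ((Measure.pi fun _ : Fin (Module.finrank ℝ V) => gaussianReal 0 1).map
        fun x => ∑ i, x i • c i) := Continuous.aestronglyMeasurable (by fun_prop)
  have m2 : AEMeasurable (fun x : Fin (Module.finrank ℝ V) → ℝ => ∑ i, x i • c i)
      (Measure.pi fun _ => gaussianReal 0 1) := Measurable.aemeasurable (by fun_prop)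
  rw [stdGaussian_eq_map_pi_orthonormalBasis c, integrable_map_measure m m2, integral_map m2 m]
  refine ⟨?_, ?_⟩
  · refine (Integrable.fintype_prod fun i => (h1d i).1).congr (.of_forall fun x => ?_)
    exact (e x).symm
  · simp only [e]
    rw [integral_fintype_prod_eq_prod fun i (x : ℝ) => exp (la * ‖T (c i)‖ ^ 2 * x ^ 2),
      hs_basis T b c, Finset.mul_sum, exp_sum]
    refine Finset.prod_le_prod (fun i _ => integral_nonneg fun x => (exp_pos _).le) fun i _ => ?_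
    rw [mul_assoc]
    exact (h1d i).2

/-- The same bound for the lower integral. -/
theorem g2l {ι : Type*} [Fintype ι] (b : OrthonormalBasis ι ℝ V) (T : V →L[ℝ] W) {la : ℝ}
    (h0 : 0 ≤ la) (h1 : 4 * la * ‖T‖ ^ 2 ≤ 1) :
    ∫⁻ y, ENNReal.ofReal (exp (la * ‖T y‖ ^ 2)) ∂(stdGaussian V) ≤
      ENNReal.ofReal (exp (2 * la * ∑ i, ‖T (b i)‖ ^ 2)) := by
  obtain ⟨i, h⟩ := g2 b T h0 h1
  rw [← ofReal_integral_eq_lintegral_ofReal i (.of_forall fun _ => (exp_pos _).le)]
  exact ENNReal.ofReal_le_ofReal h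

/-- The exponential moment of a linear form. -/
theorem g1' (p : V →L[ℝ] ℝ) : Integrable (fun y => exp (p y)) (stdGaussian V) ∧
    ∫ y, exp (p y) ∂(stdGaussian V) = exp (‖p‖ ^ 2 / 2) := by
  have e : (stdGaussian V).map p = gaussianReal 0 (‖p‖ ^ 2).toNNReal := by
    rw [IsGaussian.map_eq_gaussianReal, variance_dual_stdGaussian,
      integral_strongDual_stdGaussian]
  have m : AEStronglyMeasurable (fun x : ℝ => exp (1 * x)) ((stdGaussian V).map p) :=
    Continuous.aestronglyMeasurable (by fun_prop)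
  have h1 := (integrable_map_measure m p.continuous.aemeasurable).1
    (e ▸ integrable_exp_mul_gaussianReal 1)
  have h2 := integral_map p.continuous.aemeasurable m
  have h3 := congrFun (mgf_fun_id_gaussianReal (μ := 0) (v := (‖p‖ ^ 2).toNNReal)) 1
  rw [mgf, ← e, h2, coe_toNNReal _ (sq_nonneg _)] at h3
  simp only [one_mul, mul_one, zero_add, one_pow] at h3
  refine ⟨h1.congr (.of_forall fun y => ?_), h3⟩
  simp only [Function.comp_apply, one_mul]

theorem g1 (v : V) : Integrable (fun y => exp ⟪v, y⟫) (stdGaussian V) ∧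
    ∫ y, exp ⟪v, y⟫ ∂(stdGaussian V) = exp (‖v‖ ^ 2 / 2) := by
  have h := g1' (innerSL ℝ v)
  rw [innerSL_apply_norm] at h
  exact h

theorem g1l (p : V →L[ℝ] ℝ) :
    ∫⁻ y, ENNReal.ofReal (exp (p y)) ∂(stdGaussian V) = ENNReal.ofReal (exp (‖p‖ ^ 2 / 2)) := by
  obtain ⟨i, h⟩ := g1' p
  rw [← ofReal_integral_eq_lintegral_ofReal i (.of_forall fun _ => (exp_pos _).le), h]

end

end Pool.Agent.MP_3ee8cb_gt.DFG
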