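import Pool.Agent.MP_3ee8cb_gt.DF.Spec
import Pool.Agent.MP_3ee8cb_gt.DFG.G2

/-! The exponential moment of a quadratic form. -/

namespace Pool.Agent.MP_3ee8cb_gt.DFG

open DN DF MeasureTheory

variable [Dim]

theorem sQF : SQF := by
  intro T l h0 h1
  refine ⟨Continuous.aemeasurable (by fun_prop), (g2l (EuclideanSpace.basisFun (Fin dm) ℝ) T h0
    h1).trans (ENNReal.ofReal_le_ofReal (Real.exp_le_exp.2 ?_))⟩
  have e : ∑ i, ‖T (EuclideanSpace.basisFun (Fin dm) ℝ i)‖ ^ 2 = hs T := by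
    simp only [EuclideanSpace.basisFun_apply, hs]
  have p : 0 ≤ hs T := Finset.sum_nonneg fun _ _ => sq_nonneg _
  rw [e]
  nlinarith [mul_nonneg h0 p]

end Pool.Agent.MP_3ee8cb_gt.DFG
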